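import Mathlib

/-! # Free copies of hypergraphs for set mappings: averages over random completions -/

set_option autoImplicit false

namespace Pool.Agent.T2H56.SM

open Finset

variable {V X : Type} [Fintype V] [DecidableEq V] [Fintype X] [DecidableEq X]

/-- the value of the set mapping at the image of `e` (empty if the image is degenerate) -/
def F (k : ℕ) (f : Finset X → Finset X) (e : Finset V) (χ : V → X) : Finset X :=
  if (e.image χ).card = k then f (e.image χ) else ∅

/-- expected number of points of `O` hit by the edge `e`, when the vertices in `P` are placed by `φ` and the others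
are random -/
noncomputable def av (k : ℕ) (f : Finset X → Finset X) (P : Finset V) (φ : V → X) (e : Finset V)
    (O : Finset X) : ℝ :=
  (∑ ψ : V → X, ((F k f e (P.piecewise φ ψ) ∩ O).card : ℝ)) / (Fintype.card (V → X) : ℝ)

variable {k : ℕ} {f : Finset X → Finset X}

theorem av_nonneg (P : Finset V) (φ : V → X) (e : Finset V) (O : Finset X) : 0 ≤ av k f P φ e O := by
  unfold av
  positivity

theorem F_congr {e : Finset V} {χ χ' : V → X} (h : ∀ u ∈ e, χ u = χ' u) : F k f e χ = F k f e χ' := by
  have : e.image χ = e.image χ' := image_congr (fun u hu => h u hu)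
  unfold F
  rw [this]

/-- resampling one coordinate -/
theorem sum_update (v : V) (G : (V → X) → ℝ) :
    ∑ z : X, ∑ ψ : V → X, G (Function.update ψ v z) = (Fintype.card X : ℝ) * ∑ ψ : V → X, G ψ := by
  have h1 : ∑ z : X, ∑ ψ : V → X, G (Function.update ψ v z)
      = ∑ q : (V → X) × X, G (Function.update q.1 v q.2) := by
    rw [Finset.sum_comm, Fintype.sum_prod_type]
  have hinv : Function.Involutive
      (fun q : (V → X) × X => ((Function.update q.1 v q.2, q.1 v) : (V → X) × X)) := by
    rintro ⟨ψ, z⟩
    simp
  have h2 : ∑ q : (V → X) × X, G (Function.update q.1 v q.2) = ∑ q : (V → X) × X, G q.1 := by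
    exact Fintype.sum_equiv hinv.toPerm _ _ (fun q => rfl)
  rw [h1, h2, Fintype.sum_prod_type]
  simp only [sum_const, card_univ, nsmul_eq_mul]
  rw [Finset.mul_sum]

theorem piecewise_insert_update {P : Finset V} {v : V} (hv : v ∉ P) (φ ψ : V → X) (z : X) :
    (insert v P).piecewise (Function.update φ v z) ψ = Function.update (P.piecewise φ ψ) v z := by
  funext u
  by_cases huv : u = v
  · subst huv
    simp
  · by_cases huP : u ∈ P
    · simp [Finset.piecewise, huP, huv]
    · simp [Finset.piecewise, huP, huv]

theorem piecewise_update {P : Finset V} {v : V} (hv : v ∉ P) (φ ψ : V → X) (z : X) :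
    P.piecewise φ (Function.update ψ v z) = Function.update (P.piecewise φ ψ) v z := by
  funext u
  by_cases huv : u = v
  · subst huv
    simp [Finset.piecewise, hv]
  · by_cases huP : u ∈ P
    · simp [Finset.piecewise, huP, huv]
    · simp [Finset.piecewise, huP, huv]

/-- placing one more vertex at random does not change the average -/
theorem av_refine {P : Finset V} {v : V} (hv : v ∉ P) (φ : V → X) (e : Finset V) (O : Finset X) :
    ∑ z : X, av k f (insert v P) (Function.update φ v z) e O = (Fintype.card X : ℝ) * av k f P φ e O := by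
  unfold av
  rw [← Finset.sum_div, ← mul_div_assoc]
  congr 1
  rw [← sum_update v (fun ψ => ((F k f e (P.piecewise φ ψ) ∩ O).card : ℝ))]
  refine Finset.sum_congr rfl fun z _ => Finset.sum_congr rfl fun ψ _ => ?_
  rw [piecewise_insert_update hv, piecewise_update hv]

theorem av_indep {P : Finset V} {v : V} (hv : v ∉ P) (φ : V → X) {e : Finset V} (hve : v ∉ e) (z : X)
    (O : Finset X) : av k f (insert v P) (Function.update φ v z) e O = av k f P φ e O := by
  unfold av
  congr 1
  refine Finset.sum_congr rfl fun ψ _ => ?_
  rw [piecewise_insert_update hv]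
  rw [F_congr (χ := Function.update (P.piecewise φ ψ) v z) (χ' := P.piecewise φ ψ)]
  intro u hu
  have : u ≠ v := fun h => hve (h ▸ hu)
  simp [this]

theorem av_insert_le (P : Finset V) (φ : V → X) (e : Finset V) (z : X) (O : Finset X) :
    av k f P φ e (insert z O) ≤ av k f P φ e O + av k f P φ e {z} := by
  unfold av
  rw [← add_div, ← Finset.sum_add_distrib]
  gcongr with ψ _
  have : F k f e (P.piecewise φ ψ) ∩ insert z O
      ⊆ (F k f e (P.piecewise φ ψ) ∩ O) ∪ (F k f e (P.piecewise φ ψ) ∩ {z}) := by
    intro x hx
    simp only [mem_inter, mem_insert, mem_union, mem_singleton] at hx ⊢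
    tauto
  have h2 := (card_le_card this).trans (card_union_le _ _)
  exact_mod_cast h2

theorem av_insert_self {P : Finset V} {v : V} (hf : ∀ s, s.card = k → Disjoint (f s) s) (φ : V → X)
    {e : Finset V} (hve : v ∈ e) (z : X) (O : Finset X) :
    av k f (insert v P) (Function.update φ v z) e (insert z O)
      = av k f (insert v P) (Function.update φ v z) e O := by
  unfold av
  congr 1
  refine Finset.sum_congr rfl fun ψ _ => ?_
  have hz : z ∉ F k f e ((insert v P).piecewise (Function.update φ v z) ψ) := by
    unfold F
    split_ifs with h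
    · have h1 := hf _ h
      have h2 : z ∈ e.image ((insert v P).piecewise (Function.update φ v z) ψ) := by
        rw [mem_image]
        exact ⟨v, hve, by simp⟩
      exact fun h3 => (Finset.disjoint_left.mp h1) h3 h2
    · simp
  rw [Finset.inter_insert_of_notMem hz]

theorem card_F_le (hf : ∀ s, s.card = k → (f s).card = k) (e : Finset V) (χ : V → X) :
    (F k f e χ).card ≤ k := by
  unfold F
  split_ifs with h
  · exact (hf _ h).le
  · simp

theorem sum_av_singleton_le [Nonempty X] (hf : ∀ s, s.card = k → (f s).card = k) (P : Finset V) (φ : V → X)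
    (e : Finset V) : ∑ z : X, av k f P φ e {z} ≤ k := by
  unfold av
  rw [← Finset.sum_div, Finset.sum_comm]
  have hpos : (0 : ℝ) < (Fintype.card (V → X) : ℝ) := by
    exact_mod_cast Fintype.card_pos
  rw [div_le_iff₀ hpos]
  calc ∑ ψ : V → X, ∑ z : X, ((F k f e (P.piecewise φ ψ) ∩ {z}).card : ℝ)
      ≤ ∑ _ψ : V → X, (k : ℝ) := by
        refine Finset.sum_le_sum fun ψ _ => ?_
        have h1 : ∑ z : X, ((F k f e (P.piecewise φ ψ) ∩ {z}).card : ℝ)
            = ((F k f e (P.piecewise φ ψ)).card : ℝ) := by
          rw [Finset.card_eq_sum_ones, Nat.cast_sum, Nat.cast_one]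
          have h2 : ∀ z : X, ((F k f e (P.piecewise φ ψ) ∩ {z}).card : ℝ)
              = if z ∈ F k f e (P.piecewise φ ψ) then 1 else 0 := by
            intro z
            by_cases hz : z ∈ F k f e (P.piecewise φ ψ)
            · rw [if_pos hz, Finset.inter_singleton_of_mem hz]; simp
            · rw [if_neg hz, Finset.inter_singleton_of_notMem hz]; simp
          simp_rw [h2]
          rw [Finset.sum_ite_mem]
          simp
        rw [h1]
        exact_mod_cast card_F_le hf _ _
    _ = (k : ℝ) * (Fintype.card (V → X) : ℝ) := by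
        rw [Finset.sum_const, card_univ, nsmul_eq_mul, mul_comm]

/-- for a completely placed edge the average is the number of hit points -/
theorem av_complete [Nonempty X] {P : Finset V} (φ : V → X) {e : Finset V} (he : e ⊆ P) (O : Finset X) :
    av k f P φ e O = ((F k f e φ ∩ O).card : ℝ) := by
  unfold av
  have hpos : (0 : ℝ) < (Fintype.card (V → X) : ℝ) := by
    exact_mod_cast Fintype.card_pos
  rw [div_eq_iff hpos.ne']
  have : ∀ ψ : V → X, ((F k f e (P.piecewise φ ψ) ∩ O).card : ℝ) = ((F k f e φ ∩ O).card : ℝ) := by
    intro ψ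
    rw [F_congr (χ := P.piecewise φ ψ) (χ' := φ)]
    intro u hu
    simp [Finset.piecewise, he hu]
  simp_rw [this]
  rw [Finset.sum_const, card_univ, nsmul_eq_mul, mul_comm]

end Pool.Agent.T2H56.SM
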