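import Pool.Agent.T2H56.SM.Step

/-! # Free copies of hypergraphs for set mappings: good positions -/

set_option autoImplicit false

namespace Pool.Agent.T2H56.SM

open Finset

variable {V X : Type} [Fintype V] [DecidableEq V] [Fintype X] [DecidableEq X]

/-- Markov inequality for finite averages -/
theorem markov (g : X → ℝ) (hg : ∀ z, 0 ≤ g z) (μ : ℝ) (hμ : 0 ≤ μ)
    (hs : ∑ z : X, g z ≤ (Fintype.card X : ℝ) * μ) :
    ((univ.filter (fun z => 8 * μ < g z)).card : ℝ) ≤ (Fintype.card X : ℝ) / 8 := by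
  rcases hμ.eq_or_lt with h0 | h0
  · have h1 : ∑ z : X, g z ≤ 0 := by rw [← h0] at hs; simpa using hs
    have h2 : univ.filter (fun z => 8 * μ < g z) = ∅ := by
      rw [Finset.filter_eq_empty_iff]
      intro z _ hz
      have h3 : g z ≤ ∑ z : X, g z := Finset.single_le_sum (fun z _ => hg z) (mem_univ z)
      rw [← h0] at hz
      linarith
    rw [h2]
    simp only [card_empty, Nat.cast_zero]
    positivity
  · have h1 : ((univ.filter (fun z => 8 * μ < g z)).card : ℝ) * (8 * μ) ≤ ∑ z : X, g z := by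
      calc ((univ.filter (fun z => 8 * μ < g z)).card : ℝ) * (8 * μ)
          = ∑ _z ∈ univ.filter (fun z => 8 * μ < g z), 8 * μ := by
            rw [Finset.sum_const, nsmul_eq_mul]
        _ ≤ ∑ z ∈ univ.filter (fun z => 8 * μ < g z), g z := by
            refine Finset.sum_le_sum fun z hz => ?_
            rw [mem_filter] at hz
            exact hz.2.le
        _ ≤ ∑ z : X, g z :=
            Finset.sum_le_sum_of_subset_of_nonneg (filter_subset _ _) fun z _ _ => hg z
    have h2 := h1.trans hs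
    have h3 : ((univ.filter (fun z => 8 * μ < g z)).card : ℝ) * 8 ≤ (Fintype.card X : ℝ) := by
      have h4 : (((univ.filter (fun z => 8 * μ < g z)).card : ℝ) * 8) * μ ≤ (Fintype.card X : ℝ) * μ := by
        linarith
      exact le_of_mul_le_mul_right h4 h0
    linarith

theorem exp_le_four {s : ℝ} (h0 : 0 ≤ s) (h2 : s ≤ 2) : Real.exp s ≤ 1 + 4 * s := by
  have hc := convexOn_exp.2 (Set.mem_univ (0 : ℝ)) (Set.mem_univ (2 : ℝ))
    (show (0 : ℝ) ≤ 1 - s / 2 by linarith) (show (0 : ℝ) ≤ s / 2 by linarith) (by ring)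
  simp only [smul_eq_mul, mul_zero, zero_add, Real.exp_zero, mul_one] at hc
  have h3 : s / 2 * 2 = s := by ring
  rw [h3] at hc
  have h4 : Real.exp 2 ≤ 9 := by
    have h5 := Real.exp_one_lt_d9
    have h6 : Real.exp 2 = Real.exp 1 * Real.exp 1 := by rw [← Real.exp_add]; norm_num
    have h7 := Real.exp_pos 1
    rw [h6]
    nlinarith
  nlinarith

variable {k : ℕ} {f : Finset X → Finset X} {E : Finset (Finset V)} {L : ℝ}

/-- hits of the placed points by the edges completed by `v` -/
noncomputable def Z3 (k : ℕ) (f : Finset X → Finset X) (E : Finset (Finset V)) (P : Finset V)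
    (φ : V → X) (v : V) (z : X) : ℝ :=
  ∑ e ∈ E.filter (fun e => v ∈ e ∧ e ⊆ insert v P),
    av k f (insert v P) (Function.update φ v z) e (P.image φ)

/-- the good positions for `v` -/
noncomputable def Gd (k : ℕ) (f : Finset X → Finset X) (E : Finset (Finset V)) (L : ℝ) (P : Finset V)
    (φ : V → X) (v : V) : Finset X := by
  classical
  exact univ.filter (fun z => z ∉ P.image φ ∧ (∀ e ∈ E, e ⊆ P → z ∉ f (e.image φ)) ∧
    Z3 k f E P φ v z < 1 ∧ YY k f E L P φ v z ≤ 8 * (Wa k f E L P φ v / L) ∧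
    NN k f E P φ z ≤ 8 * ((k : ℝ) * E.card / (Fintype.card X : ℝ)))

theorem mem_Gd {P : Finset V} {φ : V → X} {v : V} {z : X} : z ∈ Gd k f E L P φ v ↔
    z ∉ P.image φ ∧ (∀ e ∈ E, e ⊆ P → z ∉ f (e.image φ)) ∧
    Z3 k f E P φ v z < 1 ∧ YY k f E L P φ v z ≤ 8 * (Wa k f E L P φ v / L) ∧
    NN k f E P φ z ≤ 8 * ((k : ℝ) * E.card / (Fintype.card X : ℝ)) := by
  classical
  unfold Gd
  simp

theorem Wa_nonneg (hL : 0 < L) (P : Finset V) (φ : V → X) (w : V) : 0 ≤ Wa k f E L P φ w := by
  unfold Wa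
  exact Finset.sum_nonneg fun e _ => mul_nonneg (wt_pos hL _).le (av_nonneg _ _ _ _)

theorem Z3_nonneg (P : Finset V) (φ : V → X) (v : V) (z : X) : 0 ≤ Z3 k f E P φ v z := by
  unfold Z3
  exact Finset.sum_nonneg fun e _ => av_nonneg _ _ _ _

theorem sum_Z3 (hk1 : 1 ≤ k) (hE : ∀ e ∈ E, e.card = k) (hL : 0 < L) {P : Finset V} {v : V} (hv : v ∉ P)
    (φ : V → X) :
    ∑ z : X, Z3 k f E P φ v z ≤ (Fintype.card X : ℝ) * (L ^ (k - 1) * Wa k f E L P φ v) := by
  unfold Z3
  rw [Finset.sum_comm]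
  have h1 : ∀ e ∈ E.filter (fun e => v ∈ e ∧ e ⊆ insert v P),
      ∑ z : X, av k f (insert v P) (Function.update φ v z) e (P.image φ)
        = (Fintype.card X : ℝ) * (L ^ (k - 1) * (wt L (e ∩ P).card * av k f P φ e (P.image φ))) := by
    intro e he
    simp only [mem_filter] at he
    obtain ⟨heE, hve, hes⟩ := he
    rw [av_refine hv]
    have hc : (e ∩ P).card = k - 1 := by
      have h2 : e ∩ P = e.erase v := by
        ext u
        simp only [mem_inter, mem_erase]
        constructor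
        · rintro ⟨hu, huP⟩
          exact ⟨fun h => hv (h ▸ huP), hu⟩
        · rintro ⟨huv, hu⟩
          have := hes hu
          rw [mem_insert] at this
          rcases this with h | h
          · exact absurd h huv
          · exact ⟨hu, h⟩
      rw [h2, card_erase_of_mem hve, hE e heE]
    rw [hc]
    have h3 : L ^ (k - 1) * wt L (k - 1) = 1 := by
      unfold wt
      rw [← mul_pow, mul_inv_cancel₀ hL.ne', one_pow]
    rw [← mul_assoc (L ^ (k - 1)), h3, one_mul]
  rw [Finset.sum_congr rfl h1, ← Finset.mul_sum, ← Finset.mul_sum]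
  have h2 : ∑ e ∈ E.filter (fun e => v ∈ e ∧ e ⊆ insert v P), wt L (e ∩ P).card * av k f P φ e (P.image φ)
      ≤ Wa k f E L P φ v := by
    unfold Wa
    refine Finset.sum_le_sum_of_subset_of_nonneg ?_ fun e _ _ =>
      mul_nonneg (wt_pos hL _).le (av_nonneg _ _ _ _)
    intro e he
    simp only [mem_filter] at he ⊢
    exact ⟨he.1, he.2.1⟩
  have h3 : (0 : ℝ) ≤ L ^ (k - 1) := by positivity
  exact mul_le_mul_of_nonneg_left (mul_le_mul_of_nonneg_left h2 h3) (by positivity)

/-- at least half of the positions are good -/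
theorem card_Gd [Nonempty X] (hk1 : 1 ≤ k) (hE : ∀ e ∈ E, e.card = k)
    (hf1 : ∀ s, s.card = k → (f s).card = k) (hL : 0 < L) {P : Finset V} {v : V} (hv : v ∉ P) (φ : V → X)
    (hinj : Set.InjOn φ P)
    (hW : L ^ (k - 1) * Wa k f E L P φ v ≤ 1 / 8)
    (hN : 8 * ((Fintype.card V : ℝ) + (k : ℝ) * E.card) ≤ (Fintype.card X : ℝ)) :
    (Fintype.card X : ℝ) ≤ 2 * ((Gd k f E L P φ v).card : ℝ) := by
  classical
  set N : ℝ := (Fintype.card X : ℝ) with hNdef
  have hN0 : 0 < N := by
    rw [hNdef]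
    exact_mod_cast Fintype.card_pos
  set B1 : Finset X := P.image φ with hB1
  set B2 : Finset X := (E.filter (fun e => e ⊆ P)).biUnion (fun e => f (e.image φ)) with hB2
  set B3 : Finset X := univ.filter (fun z => 8 * (L ^ (k - 1) * Wa k f E L P φ v) < Z3 k f E P φ v z) with hB3
  set B4 : Finset X := univ.filter (fun z => 8 * (Wa k f E L P φ v / L) < YY k f E L P φ v z) with hB4
  set B5 : Finset X := univ.filter (fun z => 8 * ((k : ℝ) * E.card / N) < NN k f E P φ z) with hB5
  set B6 : Finset X := univ.filter (fun z => 1 ≤ Z3 k f E P φ v z) with hB6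
  have hWn := Wa_nonneg (k := k) (f := f) (E := E) hL P φ v
  have hcov : (univ : Finset X) ⊆ Gd k f E L P φ v ∪ (B1 ∪ (B2 ∪ (B6 ∪ (B4 ∪ B5)))) := by
    intro z _
    by_contra hcon
    simp only [mem_union, not_or] at hcon
    obtain ⟨h0, h1, h2, h3, h4, h5⟩ := hcon
    apply h0
    rw [mem_Gd]
    refine ⟨h1, ?_, ?_, ?_, ?_⟩
    · intro e he heP hz
      apply h2
      rw [hB2, mem_biUnion]
      exact ⟨e, by simp [he, heP], hz⟩
    · by_contra h
      apply h3
      rw [hB6, mem_filter]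
      exact ⟨mem_univ z, not_lt.mp h⟩
    · by_contra h
      apply h4
      rw [hB4, mem_filter]
      exact ⟨mem_univ z, not_le.mp h⟩
    · by_contra h
      apply h5
      rw [hB5, mem_filter]
      exact ⟨mem_univ z, not_le.mp h⟩
  have hc1 : (B1.card : ℝ) ≤ (Fintype.card V : ℝ) := by
    have h1 : B1.card ≤ P.card := card_image_le
    have h2 : P.card ≤ Fintype.card V := card_le_univ P
    exact_mod_cast h1.trans h2
  have hc2 : (B2.card : ℝ) ≤ (k : ℝ) * E.card := by
    have h1 : B2.card ≤ (E.filter (fun e => e ⊆ P)).card * k := by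
      refine card_biUnion_le_card_mul _ _ _ ?_
      intro e he
      simp only [mem_filter] at he
      have h2 : (e.image φ).card = k := by
        rw [card_image_of_injOn (hinj.mono (by exact_mod_cast he.2)), hE e he.1]
      exact (hf1 _ h2).le
    have h2 : (E.filter (fun e => e ⊆ P)).card * k ≤ E.card * k :=
      Nat.mul_le_mul_right k (card_filter_le _ _)
    have h3 := h1.trans h2
    rw [mul_comm]
    exact_mod_cast h3
  have hc6 : (B6.card : ℝ) ≤ N / 8 := by
    have h1 : (B6.card : ℝ) ≤ ∑ z : X, Z3 k f E P φ v z := by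
      calc (B6.card : ℝ) = ∑ _z ∈ B6, (1 : ℝ) := by rw [Finset.sum_const, nsmul_eq_mul, mul_one]
        _ ≤ ∑ z ∈ B6, Z3 k f E P φ v z := by
            refine Finset.sum_le_sum fun z hz => ?_
            rw [hB6, mem_filter] at hz
            exact hz.2
        _ ≤ _ := Finset.sum_le_sum_of_subset_of_nonneg (filter_subset _ _) fun z _ _ =>
            Z3_nonneg P φ v z
    have h2 := sum_Z3 (f := f) hk1 hE hL hv φ
    have h3 : N * (L ^ (k - 1) * Wa k f E L P φ v) ≤ N * (1 / 8) := mul_le_mul_of_nonneg_left hW hN0.le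
    linarith
  have hc4 : (B4.card : ℝ) ≤ N / 8 := by
    refine markov _ (fun z => ?_) _ (div_nonneg hWn hL.le) ?_
    · unfold YY
      exact Finset.sum_nonneg fun e _ => mul_nonneg (wt_pos hL _).le (av_nonneg _ _ _ _)
    · rw [sum_YY hv, mul_div_assoc]
  have hc5 : (B5.card : ℝ) ≤ N / 8 := by
    refine markov _ (fun z => ?_) _ (by positivity) ?_
    · unfold NN
      exact Finset.sum_nonneg fun e _ => av_nonneg _ _ _ _
    · have h1 := sum_NN (k := k) (f := f) (E := E) hf1 P φ
      have h2 : N * ((k : ℝ) * E.card / N) = (k : ℝ) * E.card := by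
        field_simp
      rw [← hNdef, h2]
      exact h1
  have htot : N ≤ ((Gd k f E L P φ v).card : ℝ) + (B1.card + (B2.card + (B6.card + (B4.card + B5.card)))) := by
    have h1 := card_le_card hcov
    rw [card_univ] at h1
    have h2 := card_union_le (Gd k f E L P φ v) (B1 ∪ (B2 ∪ (B6 ∪ (B4 ∪ B5))))
    have h3 := card_union_le B1 (B2 ∪ (B6 ∪ (B4 ∪ B5)))
    have h4 := card_union_le B2 (B6 ∪ (B4 ∪ B5))
    have h5 := card_union_le B6 (B4 ∪ B5)
    have h6 := card_union_le B4 B5
    have h7 : Fintype.card X ≤ (Gd k f E L P φ v).card + (B1.card + (B2.card + (B6.card + (B4.card + B5.card)))) := by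
      omega
    rw [hNdef]
    exact_mod_cast h7
  linarith

end Pool.Agent.T2H56.SM
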