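import Pool.Agent.T2H56.SM.Main

/-! # Free copies of hypergraphs for set mappings: the induction -/

set_option autoImplicit false

namespace Pool.Agent.T2H56.SM

open Finset

variable {V X : Type} [Fintype V] [DecidableEq V] [Fintype X] [DecidableEq X]
variable {k : ℕ} {f : Finset X → Finset X} {E : Finset (Finset V)} {L : ℝ}

theorem sum_dg (hE : ∀ e ∈ E, e.card = k) : ∑ w : V, dg E w = k * E.card := by
  unfold dg
  have h1 : ∀ w : V, (E.filter (fun e => w ∈ e)).card = ∑ e ∈ E, if w ∈ e then 1 else 0 := by
    intro w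
    rw [card_filter]
  simp_rw [h1]
  rw [Finset.sum_comm]
  have h2 : ∀ e ∈ E, (∑ w : V, if w ∈ e then 1 else 0) = k := by
    intro e he
    rw [← hE e he]
    simp
  rw [Finset.sum_congr rfl h2, Finset.sum_const, smul_eq_mul, mul_comm]

theorem Wa_empty (φ : V → X) (w : V) : Wa k f E L ∅ φ w = 0 := by
  unfold Wa
  refine Finset.sum_eq_zero fun e _ => ?_
  unfold av
  simp

theorem place [Nonempty X] (hk1 : 1 ≤ k) (hE : ∀ e ∈ E, e.card = k)
    (hf1 : ∀ s, s.card = k → (f s).card = k) (hf2 : ∀ s, s.card = k → Disjoint (f s) s)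
    (hL : 8 * (Real.log (Fintype.card V) + 1) ≤ L) (hL8 : 8 ≤ L)
    (hN : 8 * ((Fintype.card V : ℝ) + (k : ℝ) * E.card) ≤ (Fintype.card X : ℝ))
    (hN2 : 8 * (k : ℝ) * E.card * L ^ k ≤ (Fintype.card X : ℝ))
    (hN3 : 8 * (k : ℝ) ^ 2 * E.card * L ^ k ≤ (Fintype.card X : ℝ)) :
    ∀ t : ℕ, t ≤ Fintype.card V → ∃ (P : Finset V) (φ : V → X), P.card = t ∧ Set.InjOn φ P ∧
      (∀ e ∈ E, e ⊆ P → Disjoint (f (e.image φ)) (P.image φ)) ∧
      (∀ u ∈ P, ∀ w, w ∉ P → dg E w ≤ dg E u) ∧
      Phi k f E L (8 * L ^ k * k / (Fintype.card X : ℝ)) P φ ≤ Fintype.card V := by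
  have hL0 : 0 < L := by linarith
  have hNpos : (0 : ℝ) < (Fintype.card X : ℝ) := by exact_mod_cast Fintype.card_pos
  intro t
  induction t with
  | zero =>
    intro _
    refine ⟨∅, fun _ => Classical.arbitrary X, rfl, by simp, ?_, by simp, ?_⟩
    · intro e he hes
      have h1 := hE e he
      rw [subset_empty.mp hes] at h1
      simp at h1
      omega
    · unfold Phi
      simp [Wa_empty]
  | succ t ih =>
    intro ht
    obtain ⟨P, φ, hPc, hinj, hdis, htop, hPhi⟩ := ih (by omega)
    have hne : (Pᶜ : Finset V).Nonempty := by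
      rw [← card_pos, card_compl]
      omega
    obtain ⟨v, hvP, hvmax⟩ := Finset.exists_max_image Pᶜ (dg E) hne
    have hv : v ∉ P := by simpa using hvP
    -- the water at v
    have hW : L ^ (k - 1) * Wa k f E L P φ v ≤ 1 / 8 := by
      have h1 : Real.exp (L ^ k * Wa k f E L P φ v
          - 8 * L ^ k * k / (Fintype.card X : ℝ) * dg E v * P.card) ≤ Fintype.card V := by
        refine le_trans ?_ hPhi
        unfold Phi
        exact Finset.single_le_sum (f := fun w => Real.exp (L ^ k * Wa k f E L P φ w
          - 8 * L ^ k * k / (Fintype.card X : ℝ) * dg E w * P.card)) (fun w _ => (Real.exp_pos _).le) hvP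
      have hVpos : (0 : ℝ) < Fintype.card V := lt_of_lt_of_le (Real.exp_pos _) h1
      have h2 : L ^ k * Wa k f E L P φ v
          - 8 * L ^ k * k / (Fintype.card X : ℝ) * dg E v * P.card ≤ Real.log (Fintype.card V) := by
        rw [Real.le_log_iff_exp_le hVpos]
        exact h1
      have h3 : dg E v * P.card ≤ k * E.card := by
        calc dg E v * P.card = ∑ _u ∈ P, dg E v := by rw [Finset.sum_const, smul_eq_mul, mul_comm]
          _ ≤ ∑ u ∈ P, dg E u := Finset.sum_le_sum fun u hu => htop u hu v hv
          _ ≤ ∑ u : V, dg E u := Finset.sum_le_sum_of_subset (subset_univ _)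
          _ = k * E.card := sum_dg hE
      have h3' : (dg E v : ℝ) * P.card ≤ (k : ℝ) * E.card := by exact_mod_cast h3
      have h4 : 8 * L ^ k * k / (Fintype.card X : ℝ) * dg E v * P.card ≤ 1 := by
        calc 8 * L ^ k * k / (Fintype.card X : ℝ) * dg E v * P.card
            = 8 * L ^ k * k / (Fintype.card X : ℝ) * (dg E v * P.card) := by ring
          _ ≤ 8 * L ^ k * k / (Fintype.card X : ℝ) * ((k : ℝ) * E.card) :=
              mul_le_mul_of_nonneg_left h3' (by positivity)
          _ = (8 * (k : ℝ) ^ 2 * E.card * L ^ k) / (Fintype.card X : ℝ) := by ring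
          _ ≤ 1 := by rw [div_le_one hNpos]; exact hN3
      have h5 : L ^ k * Wa k f E L P φ v ≤ L / 8 := by linarith
      have h6 : L ^ k = L ^ (k - 1) * L := by
        rw [← pow_succ]
        congr 1
        omega
      have h7 : (L ^ (k - 1) * Wa k f E L P φ v) * L ≤ (1 / 8) * L := by
        calc (L ^ (k - 1) * Wa k f E L P φ v) * L = L ^ k * Wa k f E L P φ v := by rw [h6]; ring
          _ ≤ L / 8 := h5
          _ = (1 / 8) * L := by ring
      exact le_of_mul_le_mul_right h7 hL0
    obtain ⟨z, hz, hPhi'⟩ := exists_good (f := f) hk1 hE hf1 hf2 hL8 hv φ hinj hW hN hN2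
    rw [mem_Gd] at hz
    obtain ⟨hz1, hz2, hz3, _, _⟩ := hz
    have hagree : ∀ u, u ≠ v → Function.update φ v z u = φ u := fun u hu => by simp [hu]
    have hagreeP : ∀ e : Finset V, v ∉ e → e.image (Function.update φ v z) = e.image φ := by
      intro e he
      refine image_congr fun u hu => hagree u fun h => he (h ▸ hu)
    refine ⟨insert v P, Function.update φ v z, ?_, ?_, ?_, ?_, hPhi'.trans hPhi⟩
    · rw [card_insert_of_notMem hv, hPc]
    · rw [coe_insert, Set.injOn_insert (by simpa using hv)]
      constructor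
      · intro a ha b hb hab
        have ha' : a ≠ v := fun h => hv (by rw [← h]; exact_mod_cast ha)
        have hb' : b ≠ v := fun h => hv (by rw [← h]; exact_mod_cast hb)
        rw [hagree a ha', hagree b hb'] at hab
        exact hinj ha hb hab
      · rintro ⟨u, hu, hu2⟩
        have hu' : u ≠ v := fun h => hv (by rw [← h]; exact_mod_cast hu)
        rw [hagree u hu', Function.update_self] at hu2
        apply hz1
        rw [mem_image]
        exact ⟨u, by exact_mod_cast hu, hu2⟩
    · have hinj' : Set.InjOn (Function.update φ v z) (insert v P : Finset V) := by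
        rw [coe_insert, Set.injOn_insert (by simpa using hv)]
        constructor
        · intro a ha b hb hab
          have ha' : a ≠ v := fun h => hv (by rw [← h]; exact_mod_cast ha)
          have hb' : b ≠ v := fun h => hv (by rw [← h]; exact_mod_cast hb)
          rw [hagree a ha', hagree b hb'] at hab
          exact hinj ha hb hab
        · rintro ⟨u, hu, hu2⟩
          have hu' : u ≠ v := fun h => hv (by rw [← h]; exact_mod_cast hu)
          rw [hagree u hu', Function.update_self] at hu2
          apply hz1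
          rw [mem_image]
          exact ⟨u, by exact_mod_cast hu, hu2⟩
      intro e he hes
      rw [image_insert_update hv, disjoint_insert_right]
      have hcard : (e.image (Function.update φ v z)).card = k := by
        rw [card_image_of_injOn (hinj'.mono (by exact_mod_cast hes)), hE e he]
      by_cases hve : v ∈ e
      · constructor
        · intro hzf
          have h1 := hf2 _ hcard
          refine (Finset.disjoint_left.mp h1) hzf ?_
          rw [mem_image]
          exact ⟨v, hve, by simp⟩
        · have h1 : av k f (insert v P) (Function.update φ v z) e (P.image φ) < 1 := by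
            refine lt_of_le_of_lt ?_ hz3
            unfold Z3
            refine Finset.single_le_sum (f := fun e =>
              av k f (insert v P) (Function.update φ v z) e (P.image φ)) (fun e _ => av_nonneg _ _ _ _) ?_
            simp [he, hve, hes]
          rw [av_complete _ hes] at h1
          have h2 : (F k f e (Function.update φ v z) ∩ P.image φ).card = 0 := by
            have h3 : (F k f e (Function.update φ v z) ∩ P.image φ).card < 1 := by exact_mod_cast h1
            omega
          unfold F at h2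
          rw [if_pos hcard, card_eq_zero] at h2
          exact Finset.disjoint_iff_inter_eq_empty.mpr h2
      · have hesP : e ⊆ P := by
          intro u hu
          have := hes hu
          rw [mem_insert] at this
          rcases this with h | h
          · exact absurd (h ▸ hu) hve
          · exact h
        rw [hagreeP e hve]
        exact ⟨hz2 e he hesP, hdis e he hesP⟩
    · intro u hu w hw
      rw [mem_insert] at hu
      rw [mem_insert, not_or] at hw
      rcases hu with rfl | hu
      · exact hvmax w (by simpa using hw.2)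
      · exact htop u hu w hw.2

/-- existence of a free copy -/
theorem exists_copy (hk1 : 1 ≤ k) (hE : ∀ e ∈ E, e.card = k) (hiso : ∀ v : V, ∃ e ∈ E, v ∈ e)
    (hf : ∀ s, s.card = k → (f s).card = k ∧ Disjoint (f s) s)
    (hN : 16 * (k : ℝ) ^ 2 * 8 ^ k * (1 + Real.log k) ^ k * E.card * (1 + Real.log E.card) ^ k
      ≤ (Fintype.card X : ℝ)) :
    ∃ φ : V → X, Function.Injective φ ∧ ∀ e ∈ E, Disjoint (f (e.image φ)) (univ.image φ) := by
  rcases Nat.eq_zero_or_pos E.card with hm | hm
  · have hE0 : E = ∅ := card_eq_zero.mp hm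
    have hV : IsEmpty V := by
      constructor
      intro v
      obtain ⟨e, he, _⟩ := hiso v
      rw [hE0] at he
      simp at he
    refine ⟨fun v => (hV.false v).elim, fun v => (hV.false v).elim, ?_⟩
    intro e he
    rw [hE0] at he
    simp at he
  · have hdg : ∀ w : V, 1 ≤ dg E w := by
      intro w
      obtain ⟨e, he, hw⟩ := hiso w
      unfold dg
      rw [Nat.succ_le_iff, card_pos]
      exact ⟨e, by simp [he, hw]⟩
    have hn : Fintype.card V ≤ k * E.card := by
      calc Fintype.card V = ∑ _w : V, 1 := by simp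
        _ ≤ ∑ w : V, dg E w := Finset.sum_le_sum fun w _ => hdg w
        _ = k * E.card := sum_dg hE
    have hn1 : 1 ≤ Fintype.card V := by
      obtain ⟨e, he⟩ := card_pos.mp hm
      have h1 : 0 < e.card := by rw [hE e he]; omega
      obtain ⟨v, _⟩ := card_pos.mp h1
      exact Fintype.card_pos_iff.mpr ⟨v⟩
    have hk1' : (1 : ℝ) ≤ k := by exact_mod_cast hk1
    have hm1 : (1 : ℝ) ≤ E.card := by exact_mod_cast hm
    have hn1' : (1 : ℝ) ≤ Fintype.card V := by exact_mod_cast hn1
    have hn' : (Fintype.card V : ℝ) ≤ (k : ℝ) * E.card := by exact_mod_cast hn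
    have hlk : 0 ≤ Real.log k := Real.log_nonneg hk1'
    have hlm : 0 ≤ Real.log E.card := Real.log_nonneg hm1
    have hln : 0 ≤ Real.log (Fintype.card V) := Real.log_nonneg hn1'
    set L : ℝ := 8 * (Real.log (Fintype.card V) + 1) with hLdef
    have hL8 : 8 ≤ L := by rw [hLdef]; linarith
    have hLle : L ≤ 8 * ((1 + Real.log k) * (1 + Real.log E.card)) := by
      have h1 : Real.log (Fintype.card V) ≤ Real.log k + Real.log E.card := by
        rw [← Real.log_mul (by positivity) (by positivity)]
        exact Real.log_le_log (by positivity) hn'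
      rw [hLdef]
      nlinarith [mul_nonneg hlk hlm]
    have hLk : L ^ k ≤ 8 ^ k * ((1 + Real.log k) ^ k * (1 + Real.log E.card) ^ k) := by
      calc L ^ k ≤ (8 * ((1 + Real.log k) * (1 + Real.log E.card))) ^ k :=
            pow_le_pow_left₀ (by linarith) hLle k
        _ = _ := by rw [mul_pow, mul_pow]
    have hLk1 : 1 ≤ L ^ k := one_le_pow₀ (by linarith)
    have hbig : 16 * (k : ℝ) ^ 2 * E.card * L ^ k ≤ (Fintype.card X : ℝ) := by
      calc 16 * (k : ℝ) ^ 2 * E.card * L ^ k
          ≤ 16 * (k : ℝ) ^ 2 * E.card * (8 ^ k * ((1 + Real.log k) ^ k * (1 + Real.log E.card) ^ k)) :=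
            mul_le_mul_of_nonneg_left hLk (by positivity)
        _ = 16 * (k : ℝ) ^ 2 * 8 ^ k * (1 + Real.log k) ^ k * E.card * (1 + Real.log E.card) ^ k := by ring
        _ ≤ _ := hN
    have hkk : (k : ℝ) ≤ (k : ℝ) ^ 2 := by nlinarith
    have hkm0 : (0 : ℝ) ≤ (k : ℝ) * E.card := by positivity
    have hA : (k : ℝ) * E.card ≤ (k : ℝ) ^ 2 * E.card := mul_le_mul_of_nonneg_right hkk (by positivity)
    have hB : (k : ℝ) ^ 2 * E.card ≤ (k : ℝ) ^ 2 * E.card * L ^ k := by
      have : (0 : ℝ) ≤ (k : ℝ) ^ 2 * E.card := by positivity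
      nlinarith
    have hX : (0 : ℝ) < Fintype.card X := by
      have : (0 : ℝ) < (k : ℝ) ^ 2 * E.card := by positivity
      nlinarith
    haveI : Nonempty X := by
      rw [← Fintype.card_pos_iff]
      exact_mod_cast hX
    have hN1 : 8 * ((Fintype.card V : ℝ) + (k : ℝ) * E.card) ≤ (Fintype.card X : ℝ) := by
      nlinarith
    have hN3 : 8 * (k : ℝ) ^ 2 * E.card * L ^ k ≤ (Fintype.card X : ℝ) := by
      have : (0 : ℝ) ≤ (k : ℝ) ^ 2 * E.card * L ^ k := by positivity
      nlinarith
    have hN2 : 8 * (k : ℝ) * E.card * L ^ k ≤ (Fintype.card X : ℝ) := by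
      have h1 : (k : ℝ) * E.card * L ^ k ≤ (k : ℝ) ^ 2 * E.card * L ^ k :=
        mul_le_mul_of_nonneg_right hA (by positivity)
      nlinarith
    obtain ⟨P, φ, hPc, hinj, hdis, _, _⟩ := place (f := f) hk1 hE (fun s hs => (hf s hs).1)
      (fun s hs => (hf s hs).2) (le_of_eq hLdef.symm) hL8 hN1 hN2 hN3 (Fintype.card V) le_rfl
    have hPu : P = univ := (card_eq_iff_eq_univ P).mp hPc
    subst hPu
    refine ⟨φ, ?_, fun e he => hdis e he (subset_univ e)⟩
    rw [coe_univ] at hinj
    exact Set.injOn_univ.mp hinj

end Pool.Agent.T2H56.SM
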