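import Pool.Agent.T2H56.SM.Good

/-! # Free copies of hypergraphs for set mappings: potential function and induction -/

set_option autoImplicit false

namespace Pool.Agent.T2H56.SM

open Finset

variable {V X : Type} [Fintype V] [DecidableEq V] [Fintype X] [DecidableEq X]
variable {k : ℕ} {f : Finset X → Finset X} {E : Finset (Finset V)} {L : ℝ}

/-- the potential -/
noncomputable def Phi (k : ℕ) (f : Finset X → Finset X) (E : Finset (Finset V)) (L c : ℝ) (P : Finset V)
    (φ : V → X) : ℝ :=
  ∑ w ∈ Pᶜ, Real.exp (L ^ k * Wa k f E L P φ w - c * dg E w * P.card)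

theorem xx_nonneg (hL : 0 < L) (P : Finset V) (φ : V → X) (v w : V) : 0 ≤ xx k f E L P φ v w := by
  unfold xx
  exact Finset.sum_nonneg fun e _ => mul_nonneg (wt_pos hL _).le (av_nonneg _ _ _ _)

/-- the average of the potential of one vertex over the good positions -/
theorem sum_Gd [Nonempty X] (hk1 : 1 ≤ k) (hE : ∀ e ∈ E, e.card = k)
    (hf1 : ∀ s, s.card = k → (f s).card = k) (hf2 : ∀ s, s.card = k → Disjoint (f s) s)
    (hL : 8 ≤ L) {P : Finset V} {v : V} (hv : v ∉ P) (φ : V → X)
    (hinj : Set.InjOn φ P)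
    (hW : L ^ (k - 1) * Wa k f E L P φ v ≤ 1 / 8)
    (hN : 8 * ((Fintype.card V : ℝ) + (k : ℝ) * E.card) ≤ (Fintype.card X : ℝ))
    (hN2 : 8 * (k : ℝ) * E.card * L ^ k ≤ (Fintype.card X : ℝ)) (w : V) :
    ∑ z ∈ Gd k f E L P φ v, Real.exp (L ^ k * Wa k f E L (insert v P) (Function.update φ v z) w)
      ≤ ((Gd k f E L P φ v).card : ℝ) *
        Real.exp (L ^ k * Wa k f E L P φ w + 8 * L ^ k * k / (Fintype.card X : ℝ) * dg E w) := by
  have hL0 : 0 < L := by linarith
  have hL1 : 1 ≤ L := by linarith
  set N : ℝ := (Fintype.card X : ℝ) with hNdef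
  have hN0 : 0 < N := by
    rw [hNdef]
    exact_mod_cast Fintype.card_pos
  have hcard := card_Gd (f := f) hk1 hE hf1 hL0 hv φ hinj hW hN
  set G := Gd k f E L P φ v with hG
  set lam : ℝ := L ^ k with hlam
  have hlam0 : 0 < lam := by positivity
  set x := xx k f E L P φ v w with hx
  have hx0 : 0 ≤ x := xx_nonneg hL0 P φ v w
  set W := Wa k f E L P φ w with hWdef
  have hstep : ∀ z ∈ G, Real.exp (lam * Wa k f E L (insert v P) (Function.update φ v z) w)
      ≤ Real.exp (lam * (W - x)) *
        (1 + 4 * lam * (yy k f E L P φ v w z + nn k f E P φ w z)) := by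
    intro z hz
    rw [hG, mem_Gd] at hz
    obtain ⟨_, _, _, h4, h5⟩ := hz
    have h1 := Wa_step (E := E) hf2 hL1 hv φ w z
    have hy0 : 0 ≤ yy k f E L P φ v w z := yy_nonneg hL0 P φ v w z
    have hn0 : 0 ≤ nn k f E P φ w z := nn_nonneg P φ w z
    have hy1 : lam * yy k f E L P φ v w z ≤ 1 := by
      have h2 : yy k f E L P φ v w z ≤ 8 * (Wa k f E L P φ v / L) := (yy_le hL0 P φ v w z).trans h4
      have h3 : lam * (8 * (Wa k f E L P φ v / L)) = 8 * (L ^ (k - 1) * Wa k f E L P φ v) := by
        have h6 : L ^ k = L ^ (k - 1) * L := by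
          rw [← pow_succ]
          congr 1
          omega
        rw [hlam, h6]
        field_simp
      calc lam * yy k f E L P φ v w z ≤ lam * (8 * (Wa k f E L P φ v / L)) :=
            mul_le_mul_of_nonneg_left h2 hlam0.le
        _ ≤ 1 := by rw [h3]; linarith
    have hn1 : lam * nn k f E P φ w z ≤ 1 := by
      have h2 : nn k f E P φ w z ≤ 8 * ((k : ℝ) * E.card / N) := (nn_le P φ w z).trans h5
      calc lam * nn k f E P φ w z ≤ lam * (8 * ((k : ℝ) * E.card / N)) :=
            mul_le_mul_of_nonneg_left h2 hlam0.le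
        _ = (8 * (k : ℝ) * E.card * L ^ k) / N := by rw [hlam]; ring
        _ ≤ 1 := by rw [div_le_one hN0]; exact hN2
    have hexp := exp_le_four (s := lam * (yy k f E L P φ v w z + nn k f E P φ w z))
      (by positivity) (by linarith)
    calc Real.exp (lam * Wa k f E L (insert v P) (Function.update φ v z) w)
        ≤ Real.exp (lam * (W - x) + lam * (yy k f E L P φ v w z + nn k f E P φ w z)) := by
          apply Real.exp_le_exp.mpr
          nlinarith
      _ = Real.exp (lam * (W - x)) * Real.exp (lam * (yy k f E L P φ v w z + nn k f E P φ w z)) :=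
          Real.exp_add _ _
      _ ≤ _ := by
          refine mul_le_mul_of_nonneg_left ?_ (Real.exp_pos _).le
          calc _ ≤ 1 + 4 * (lam * (yy k f E L P φ v w z + nn k f E P φ w z)) := hexp
            _ = _ := by ring
  have hsum1 : ∑ z ∈ G, yy k f E L P φ v w z ≤ N * x / L := by
    calc ∑ z ∈ G, yy k f E L P φ v w z ≤ ∑ z : X, yy k f E L P φ v w z :=
          Finset.sum_le_sum_of_subset_of_nonneg (subset_univ _) fun z _ _ => yy_nonneg hL0 P φ v w z
      _ = _ := sum_yy hv φ w
  have hsum2 : ∑ z ∈ G, nn k f E P φ w z ≤ (k : ℝ) * dg E w := by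
    calc ∑ z ∈ G, nn k f E P φ w z ≤ ∑ z : X, nn k f E P φ w z :=
          Finset.sum_le_sum_of_subset_of_nonneg (subset_univ _) fun z _ _ => nn_nonneg P φ w z
      _ ≤ _ := sum_nn hf1 P φ w
  have hG0 : (0 : ℝ) < G.card := by linarith
  calc ∑ z ∈ G, Real.exp (lam * Wa k f E L (insert v P) (Function.update φ v z) w)
      ≤ ∑ z ∈ G, Real.exp (lam * (W - x)) *
        (1 + 4 * lam * (yy k f E L P φ v w z + nn k f E P φ w z)) := Finset.sum_le_sum hstep
    _ = Real.exp (lam * (W - x)) * ((G.card : ℝ) + 4 * lam *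
          (∑ z ∈ G, yy k f E L P φ v w z + ∑ z ∈ G, nn k f E P φ w z)) := by
        rw [← Finset.mul_sum, Finset.sum_add_distrib, ← Finset.mul_sum, Finset.sum_add_distrib]
        simp
    _ ≤ Real.exp (lam * (W - x)) * ((G.card : ℝ) + 4 * lam * (N * x / L + (k : ℝ) * dg E w)) := by
        refine mul_le_mul_of_nonneg_left ?_ (Real.exp_pos _).le
        have : 4 * lam * (∑ z ∈ G, yy k f E L P φ v w z + ∑ z ∈ G, nn k f E P φ w z)
            ≤ 4 * lam * (N * x / L + (k : ℝ) * dg E w) :=
          mul_le_mul_of_nonneg_left (add_le_add hsum1 hsum2) (by positivity)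
        linarith
    _ = Real.exp (lam * (W - x)) * ((G.card : ℝ) + N * (4 * lam * (x / L + (k : ℝ) * dg E w / N))) := by
        congr 2
        field_simp
    _ ≤ Real.exp (lam * (W - x)) * ((G.card : ℝ) + (2 * G.card) * (4 * lam * (x / L + (k : ℝ) * dg E w / N))) := by
        refine mul_le_mul_of_nonneg_left ?_ (Real.exp_pos _).le
        have : N * (4 * lam * (x / L + (k : ℝ) * dg E w / N))
            ≤ (2 * G.card) * (4 * lam * (x / L + (k : ℝ) * dg E w / N)) :=
          mul_le_mul_of_nonneg_right hcard (by positivity)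
        linarith
    _ = (G.card : ℝ) * (Real.exp (lam * (W - x)) * (8 * lam * (x / L + (k : ℝ) * dg E w / N) + 1)) := by
        ring
    _ ≤ (G.card : ℝ) * (Real.exp (lam * (W - x)) * Real.exp (8 * lam * (x / L + (k : ℝ) * dg E w / N))) := by
        refine mul_le_mul_of_nonneg_left ?_ hG0.le
        exact mul_le_mul_of_nonneg_left (Real.add_one_le_exp _) (Real.exp_pos _).le
    _ = (G.card : ℝ) * Real.exp (lam * (W - x) + 8 * lam * (x / L + (k : ℝ) * dg E w / N)) := by
        rw [Real.exp_add]
    _ ≤ (G.card : ℝ) * Real.exp (lam * W + 8 * lam * k / N * dg E w) := by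
        refine mul_le_mul_of_nonneg_left ?_ hG0.le
        apply Real.exp_le_exp.mpr
        have h1 : 8 * (x / L) ≤ x := by
          rw [← mul_div_assoc, div_le_iff₀ hL0]
          nlinarith
        have h2 : 8 * lam * (x / L + (k : ℝ) * dg E w / N) = lam * (8 * (x / L)) + 8 * lam * k / N * dg E w := by
          ring
        rw [h2]
        nlinarith

/-- there is a good position that does not increase the potential -/
theorem exists_good [Nonempty X] (hk1 : 1 ≤ k) (hE : ∀ e ∈ E, e.card = k)
    (hf1 : ∀ s, s.card = k → (f s).card = k) (hf2 : ∀ s, s.card = k → Disjoint (f s) s)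
    (hL : 8 ≤ L) {P : Finset V} {v : V} (hv : v ∉ P) (φ : V → X)
    (hinj : Set.InjOn φ P)
    (hW : L ^ (k - 1) * Wa k f E L P φ v ≤ 1 / 8)
    (hN : 8 * ((Fintype.card V : ℝ) + (k : ℝ) * E.card) ≤ (Fintype.card X : ℝ))
    (hN2 : 8 * (k : ℝ) * E.card * L ^ k ≤ (Fintype.card X : ℝ)) :
    ∃ z ∈ Gd k f E L P φ v,
      Phi k f E L (8 * L ^ k * k / (Fintype.card X : ℝ)) (insert v P) (Function.update φ v z)
        ≤ Phi k f E L (8 * L ^ k * k / (Fintype.card X : ℝ)) P φ := by
  have hL0 : 0 < L := by linarith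
  have hcard := card_Gd (f := f) hk1 hE hf1 hL0 hv φ hinj hW hN
  have hN0 : (0 : ℝ) < (Fintype.card X : ℝ) := by exact_mod_cast Fintype.card_pos
  set c : ℝ := 8 * L ^ k * k / (Fintype.card X : ℝ) with hc
  set G := Gd k f E L P φ v with hG
  have hG0 : (0 : ℝ) < G.card := by linarith
  have hGne : G.Nonempty := by
    rw [← card_pos]
    exact_mod_cast hG0
  apply Finset.exists_le_of_sum_le hGne
  rw [Finset.sum_const, nsmul_eq_mul]
  unfold Phi
  rw [Finset.sum_comm, Finset.mul_sum]
  have hsub : (insert v P)ᶜ ⊆ Pᶜ := by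
    intro u hu
    simp only [mem_compl, mem_insert, not_or] at hu ⊢
    exact hu.2
  calc ∑ w ∈ (insert v P)ᶜ, ∑ z ∈ G, Real.exp (L ^ k * Wa k f E L (insert v P) (Function.update φ v z) w
        - c * dg E w * (insert v P).card)
      ≤ ∑ w ∈ (insert v P)ᶜ, (G.card : ℝ) * Real.exp (L ^ k * Wa k f E L P φ w - c * dg E w * P.card) := by
        refine Finset.sum_le_sum fun w _ => ?_
        have h1 := sum_Gd (f := f) hk1 hE hf1 hf2 hL hv φ hinj hW hN hN2 w
        rw [← hG, ← hc] at h1
        have h2 : ∀ z ∈ G, Real.exp (L ^ k * Wa k f E L (insert v P) (Function.update φ v z) w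
            - c * dg E w * (insert v P).card)
            = Real.exp (L ^ k * Wa k f E L (insert v P) (Function.update φ v z) w) *
              Real.exp (- (c * dg E w * (insert v P).card)) := by
          intro z _
          rw [← Real.exp_add]
          congr 1
        rw [Finset.sum_congr rfl h2, ← Finset.sum_mul]
        have h3 : ((insert v P).card : ℝ) = P.card + 1 := by
          rw [card_insert_of_notMem hv]
          push_cast
          ring
        calc _ ≤ ((G.card : ℝ) * Real.exp (L ^ k * Wa k f E L P φ w + c * dg E w)) *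
              Real.exp (- (c * dg E w * (insert v P).card)) :=
              mul_le_mul_of_nonneg_right h1 (Real.exp_pos _).le
          _ = (G.card : ℝ) * Real.exp (L ^ k * Wa k f E L P φ w - c * dg E w * P.card) := by
              rw [mul_assoc, ← Real.exp_add, h3]
              congr 2
              ring
    _ ≤ ∑ w ∈ Pᶜ, (G.card : ℝ) * Real.exp (L ^ k * Wa k f E L P φ w - c * dg E w * P.card) :=
        Finset.sum_le_sum_of_subset_of_nonneg hsub fun w _ _ => by positivity

end Pool.Agent.T2H56.SM
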