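import Pool.Agent.T2H56.SM.Core

/-! # Free copies of hypergraphs for set mappings: one step of the placement -/

set_option autoImplicit false

namespace Pool.Agent.T2H56.SM

open Finset

variable {V X : Type} [Fintype V] [DecidableEq V] [Fintype X] [DecidableEq X]

/-- weight of an edge with `j` placed vertices -/
noncomputable def wt (L : ℝ) (j : ℕ) : ℝ := (L⁻¹) ^ j

/-- weighted water at the unplaced vertex `w` -/
noncomputable def Wa (k : ℕ) (f : Finset X → Finset X) (E : Finset (Finset V)) (L : ℝ) (P : Finset V)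
    (φ : V → X) (w : V) : ℝ :=
  ∑ e ∈ E.filter (fun e => w ∈ e), wt L (e ∩ P).card * av k f P φ e (P.image φ)

/-- number of edges containing `w` -/
def dg (E : Finset (Finset V)) (w : V) : ℕ := (E.filter (fun e => w ∈ e)).card

/-- the water on the edges through `v` and `w` -/
noncomputable def xx (k : ℕ) (f : Finset X → Finset X) (E : Finset (Finset V)) (L : ℝ) (P : Finset V)
    (φ : V → X) (v w : V) : ℝ :=
  ∑ e ∈ E.filter (fun e => w ∈ e ∧ v ∈ e), wt L (e ∩ P).card * av k f P φ e (P.image φ)

/-- the new water on the edges through `v` and `w` after placing `v` at `z` -/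
noncomputable def yy (k : ℕ) (f : Finset X → Finset X) (E : Finset (Finset V)) (L : ℝ) (P : Finset V)
    (φ : V → X) (v w : V) (z : X) : ℝ :=
  ∑ e ∈ E.filter (fun e => w ∈ e ∧ v ∈ e), wt L ((e ∩ P).card + 1) *
    av k f (insert v P) (Function.update φ v z) e (P.image φ)

/-- the new water on the edges through `v` after placing `v` at `z` -/
noncomputable def YY (k : ℕ) (f : Finset X → Finset X) (E : Finset (Finset V)) (L : ℝ) (P : Finset V)
    (φ : V → X) (v : V) (z : X) : ℝ :=
  ∑ e ∈ E.filter (fun e => v ∈ e), wt L ((e ∩ P).card + 1) *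
    av k f (insert v P) (Function.update φ v z) e (P.image φ)

/-- hits of the new point `z` by the edges through `w` -/
noncomputable def nn (k : ℕ) (f : Finset X → Finset X) (E : Finset (Finset V)) (P : Finset V)
    (φ : V → X) (w : V) (z : X) : ℝ :=
  ∑ e ∈ E.filter (fun e => w ∈ e), av k f P φ e {z}

/-- hits of the new point `z` by all edges -/
noncomputable def NN (k : ℕ) (f : Finset X → Finset X) (E : Finset (Finset V)) (P : Finset V)
    (φ : V → X) (z : X) : ℝ :=
  ∑ e ∈ E, av k f P φ e {z}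

variable {k : ℕ} {f : Finset X → Finset X} {E : Finset (Finset V)} {L : ℝ}

theorem wt_pos (hL : 0 < L) (j : ℕ) : 0 < wt L j := by
  unfold wt
  positivity

theorem wt_le_one (hL : 1 ≤ L) (j : ℕ) : wt L j ≤ 1 := by
  unfold wt
  exact pow_le_one₀ (by positivity) (inv_le_one_of_one_le₀ hL)

theorem wt_succ (j : ℕ) : wt L (j + 1) = wt L j / L := by
  unfold wt
  rw [pow_succ, div_eq_mul_inv]

theorem yy_nonneg (hL : 0 < L) (P : Finset V) (φ : V → X) (v w : V) (z : X) :
    0 ≤ yy k f E L P φ v w z := by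
  unfold yy
  exact Finset.sum_nonneg fun e _ => mul_nonneg (wt_pos hL _).le (av_nonneg _ _ _ _)

theorem nn_nonneg (P : Finset V) (φ : V → X) (w : V) (z : X) : 0 ≤ nn k f E P φ w z := by
  unfold nn
  exact Finset.sum_nonneg fun e _ => av_nonneg _ _ _ _

theorem yy_le (hL : 0 < L) (P : Finset V) (φ : V → X) (v w : V) (z : X) :
    yy k f E L P φ v w z ≤ YY k f E L P φ v z := by
  unfold yy YY
  refine Finset.sum_le_sum_of_subset_of_nonneg ?_ fun e _ _ =>
    mul_nonneg (wt_pos hL _).le (av_nonneg _ _ _ _)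
  intro e he
  simp only [mem_filter] at he ⊢
  exact ⟨he.1, he.2.2⟩

theorem nn_le (P : Finset V) (φ : V → X) (w : V) (z : X) :
    nn k f E P φ w z ≤ NN k f E P φ z := by
  unfold nn NN
  exact Finset.sum_le_sum_of_subset_of_nonneg (filter_subset _ _) fun e _ _ => av_nonneg _ _ _ _

theorem sum_yy {P : Finset V} {v : V} (hv : v ∉ P) (φ : V → X) (w : V) :
    ∑ z : X, yy k f E L P φ v w z = (Fintype.card X : ℝ) * xx k f E L P φ v w / L := by
  unfold yy xx
  rw [Finset.sum_comm, Finset.mul_sum, Finset.sum_div]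
  refine Finset.sum_congr rfl fun e _ => ?_
  rw [← Finset.mul_sum, av_refine hv, wt_succ]
  ring

theorem sum_YY {P : Finset V} {v : V} (hv : v ∉ P) (φ : V → X) :
    ∑ z : X, YY k f E L P φ v z = (Fintype.card X : ℝ) * Wa k f E L P φ v / L := by
  unfold YY Wa
  rw [Finset.sum_comm, Finset.mul_sum, Finset.sum_div]
  refine Finset.sum_congr rfl fun e _ => ?_
  rw [← Finset.mul_sum, av_refine hv, wt_succ]
  ring

theorem sum_nn [Nonempty X] (hf : ∀ s, s.card = k → (f s).card = k) (P : Finset V) (φ : V → X) (w : V) :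
    ∑ z : X, nn k f E P φ w z ≤ (k : ℝ) * dg E w := by
  unfold nn dg
  rw [Finset.sum_comm]
  calc ∑ e ∈ E.filter (fun e => w ∈ e), ∑ z : X, av k f P φ e {z}
      ≤ ∑ _e ∈ E.filter (fun e => w ∈ e), (k : ℝ) :=
        Finset.sum_le_sum fun e _ => sum_av_singleton_le hf P φ e
    _ = _ := by rw [Finset.sum_const, nsmul_eq_mul, mul_comm]

theorem sum_NN [Nonempty X] (hf : ∀ s, s.card = k → (f s).card = k) (P : Finset V) (φ : V → X) :
    ∑ z : X, NN k f E P φ z ≤ (k : ℝ) * E.card := by
  unfold NN
  rw [Finset.sum_comm]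
  calc ∑ e ∈ E, ∑ z : X, av k f P φ e {z}
      ≤ ∑ _e ∈ E, (k : ℝ) :=
        Finset.sum_le_sum fun e _ => sum_av_singleton_le hf P φ e
    _ = _ := by rw [Finset.sum_const, nsmul_eq_mul, mul_comm]

theorem image_insert_update {P : Finset V} {v : V} (hv : v ∉ P) (φ : V → X) (z : X) :
    (insert v P).image (Function.update φ v z) = insert z (P.image φ) := by
  rw [image_insert, Function.update_self]
  congr 1
  refine image_congr ?_
  intro u hu
  have : u ≠ v := fun h => hv (h ▸ hu)
  simp [this]

theorem xx_le (hL : 0 < L) (P : Finset V) (φ : V → X) (v w : V) :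
    xx k f E L P φ v w ≤ Wa k f E L P φ w := by
  unfold xx Wa
  refine Finset.sum_le_sum_of_subset_of_nonneg ?_ fun e _ _ =>
    mul_nonneg (wt_pos hL _).le (av_nonneg _ _ _ _)
  intro e he
  simp only [mem_filter] at he ⊢
  exact ⟨he.1, he.2.1⟩

/-- the change of the water at `w` when `v` is placed at `z` -/
theorem Wa_step (hf : ∀ s, s.card = k → Disjoint (f s) s) (hL : 1 ≤ L) {P : Finset V} {v : V} (hv : v ∉ P)
    (φ : V → X) (w : V) (z : X) :
    Wa k f E L (insert v P) (Function.update φ v z) w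
      ≤ Wa k f E L P φ w - xx k f E L P φ v w + yy k f E L P φ v w z + nn k f E P φ w z := by
  have hL0 : 0 < L := by linarith
  unfold Wa xx yy nn
  rw [image_insert_update hv]
  have hsplit : ∀ g : Finset V → ℝ, ∑ e ∈ E.filter (fun e => w ∈ e), g e
      = ∑ e ∈ E.filter (fun e => w ∈ e ∧ v ∈ e), g e + ∑ e ∈ E.filter (fun e => w ∈ e ∧ v ∉ e), g e := by
    intro g
    rw [← Finset.sum_filter_add_sum_filter_not (E.filter (fun e => w ∈ e)) (fun e => v ∈ e), filter_filter,
      filter_filter]
  rw [hsplit (fun e => wt L (e ∩ insert v P).card *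
      av k f (insert v P) (Function.update φ v z) e (insert z (P.image φ))),
    hsplit (fun e => wt L (e ∩ P).card * av k f P φ e (P.image φ)), hsplit (fun e => av k f P φ e {z})]
  have h1 : ∑ e ∈ E.filter (fun e => w ∈ e ∧ v ∈ e), wt L (e ∩ insert v P).card *
      av k f (insert v P) (Function.update φ v z) e (insert z (P.image φ))
      = ∑ e ∈ E.filter (fun e => w ∈ e ∧ v ∈ e), wt L ((e ∩ P).card + 1) *
      av k f (insert v P) (Function.update φ v z) e (P.image φ) := by
    refine Finset.sum_congr rfl fun e he => ?_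
    simp only [mem_filter] at he
    rw [av_insert_self hf φ he.2.2, Finset.inter_insert_of_mem he.2.2, card_insert_of_notMem]
    simp [hv]
  have h2 : ∑ e ∈ E.filter (fun e => w ∈ e ∧ v ∉ e), wt L (e ∩ insert v P).card *
      av k f (insert v P) (Function.update φ v z) e (insert z (P.image φ))
      ≤ ∑ e ∈ E.filter (fun e => w ∈ e ∧ v ∉ e), wt L (e ∩ P).card * av k f P φ e (P.image φ)
        + ∑ e ∈ E.filter (fun e => w ∈ e ∧ v ∉ e), av k f P φ e {z} := by
    rw [← Finset.sum_add_distrib]
    refine Finset.sum_le_sum fun e he => ?_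
    simp only [mem_filter] at he
    rw [av_indep hv φ he.2.2, Finset.inter_insert_of_notMem he.2.2]
    have h3 := av_insert_le (k := k) (f := f) P φ e z (P.image φ)
    have h4 := wt_le_one hL (e ∩ P).card
    have h5 := wt_pos hL0 (e ∩ P).card
    have h6 := av_nonneg (k := k) (f := f) P φ e {z}
    calc wt L (e ∩ P).card * av k f P φ e (insert z (P.image φ))
        ≤ wt L (e ∩ P).card * (av k f P φ e (P.image φ) + av k f P φ e {z}) :=
          mul_le_mul_of_nonneg_left h3 h5.le
      _ ≤ _ := by nlinarith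
  have h7 : 0 ≤ ∑ e ∈ E.filter (fun e => w ∈ e ∧ v ∈ e), av k f P φ e {z} :=
    Finset.sum_nonneg fun e _ => av_nonneg _ _ _ _
  rw [h1]
  linarith

end Pool.Agent.T2H56.SM
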